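import Mathlib

/-! # Invariant consistent path systems: counting argument -/

set_option autoImplicit false

namespace Pool.Agent.Q251.IPS

open Finset

universe u

variable {G : Type u} [Group G]

/-- An abstract invariant consistent path system: `Q h L` says that `h 0, ..., h L` is a chosen
path. -/
structure Sys (Q : (ℕ → G) → ℕ → Prop) : Prop where
  sub : ∀ h L i k, Q h L → i + k ≤ L → Q (fun t => h (i + t)) k
  rev : ∀ h L, Q h L → Q (fun t => h (L - t)) L
  mul : ∀ h L g, Q h L → Q (fun t => g * h t) L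
  uniq : ∀ h L h' L', Q h L → Q h' L' → h 0 = h' 0 → h L = h' L' → L = L' ∧ ∀ t ≤ L, h t = h' t
  total : ∀ u v, ∃ h L, Q h L ∧ h 0 = u ∧ h L = v

/-- The `t`-th letter of a path. -/
def let_ (h : ℕ → G) (t : ℕ) : G := (h t)⁻¹ * h (t + 1)

variable {Q : (ℕ → G) → ℕ → Prop}

theorem Sys.inj (hQ : Sys Q) {h : ℕ → G} {L i j : ℕ} (hh : Q h L) (hij : i < j) (hj : j ≤ L) :
    h i ≠ h j := by
  intro he
  have h1 := hQ.sub h L i (j - i) hh (by omega)
  have h2 := hQ.sub h L i 0 hh (by omega)
  have h3 := (hQ.uniq _ _ _ _ h1 h2 (by simp) (by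
    show h (i + (j - i)) = h (i + 0)
    rw [show i + (j - i) = j by omega, Nat.add_zero, he])).1
  omega

/-- Last letters of equal elements agree. -/
theorem Sys.last (hQ : Sys Q) {h h' : ℕ → G} {L L' i j k l : ℕ} (hh : Q h L) (hh' : Q h' L')
    (hji : j < i) (hi : i ≤ L) (hk : k ≤ L') (hl : l ≤ L')
    (he : (h j)⁻¹ * h i = (h' l)⁻¹ * h' k) :
    (l < k ∧ let_ h (i - 1) = let_ h' (k - 1)) ∨ (k < l ∧ let_ h (i - 1) = (let_ h' k)⁻¹) := by
  have h1 := hQ.mul _ _ (h j)⁻¹ (hQ.sub h L j (i - j) hh (by omega))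
  have e1 : j + (i - j) = i := by omega
  rcases lt_trichotomy l k with hlk | hlk | hlk
  · left
    refine ⟨hlk, ?_⟩
    have h2 := hQ.mul _ _ (h' l)⁻¹ (hQ.sub h' L' l (k - l) hh' (by omega))
    have e2 : l + (k - l) = k := by omega
    obtain ⟨h3, h4⟩ := hQ.uniq _ _ _ _ h1 h2 (by simp) (by
      show (h j)⁻¹ * h (j + (i - j)) = (h' l)⁻¹ * h' (l + (k - l))
      rw [e1, e2, he])
    have h5 : (h j)⁻¹ * h (j + (i - j - 1)) = (h' l)⁻¹ * h' (l + (i - j - 1)) :=
      h4 (i - j - 1) (by omega)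
    rw [show j + (i - j - 1) = i - 1 by omega, show l + (i - j - 1) = k - 1 by omega] at h5
    unfold let_
    rw [show i - 1 + 1 = i by omega, show k - 1 + 1 = k by omega]
    calc (h (i - 1))⁻¹ * h i = ((h j)⁻¹ * h (i - 1))⁻¹ * ((h j)⁻¹ * h i) := by group
      _ = ((h' l)⁻¹ * h' (k - 1))⁻¹ * ((h' l)⁻¹ * h' k) := by rw [h5, he]
      _ = (h' (k - 1))⁻¹ * h' k := by group
  · exfalso
    subst hlk
    rw [inv_mul_cancel] at he
    exact hQ.inj hh hji hi (by rw [inv_mul_eq_one] at he; exact he)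
  · right
    refine ⟨hlk, ?_⟩
    have h2 := hQ.mul _ _ (h' l)⁻¹ (hQ.rev _ _ (hQ.sub h' L' k (l - k) hh' (by omega)))
    obtain ⟨h3, h4⟩ := hQ.uniq _ _ _ _ h1 h2 (by
      show (h j)⁻¹ * h (j + 0) = (h' l)⁻¹ * h' (k + (l - k - 0))
      rw [show k + (l - k - 0) = l by omega]
      simp) (by
      show (h j)⁻¹ * h (j + (i - j)) = (h' l)⁻¹ * h' (k + (l - k - (l - k)))
      rw [e1, show k + (l - k - (l - k)) = k by omega, he])
    have h5 : (h j)⁻¹ * h (j + (i - j - 1)) = (h' l)⁻¹ * h' (k + (l - k - (i - j - 1))) :=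
      h4 (i - j - 1) (by omega)
    rw [show j + (i - j - 1) = i - 1 by omega, show k + (l - k - (i - j - 1)) = k + 1 by omega]
      at h5
    unfold let_
    rw [show i - 1 + 1 = i by omega]
    calc (h (i - 1))⁻¹ * h i = ((h j)⁻¹ * h (i - 1))⁻¹ * ((h j)⁻¹ * h i) := by group
      _ = ((h' l)⁻¹ * h' (k + 1))⁻¹ * ((h' l)⁻¹ * h' k) := by rw [h5, he]
      _ = ((h' k)⁻¹ * h' (k + 1))⁻¹ := by group

section count

variable [Fintype G] [DecidableEq G]

/-- Number of occurrences of a letter. -/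
def cnt (h : ℕ → G) (L : ℕ) (x : G) : ℕ := ((range L).filter fun k => let_ h k = x).card

/-- Occurrences of a letter and of its inverse. -/
def bb (h : ℕ → G) (L : ℕ) (x : G) : ℕ := cnt h L x + cnt h L x⁻¹

omit [Fintype G] in
theorem bb_inv (h : ℕ → G) (L : ℕ) (x : G) : bb h L x⁻¹ = bb h L x := by
  unfold bb
  rw [inv_inv, add_comm]

/-- The counting lemma. -/
theorem Sys.count (hQ : Sys Q) {h h' : ℕ → G} {L L' : ℕ} (hh : Q h L) (hh' : Q h' L') :
    ∑ i ∈ range L, (L' - bb h' L' (let_ h i)) ≤ Fintype.card G := by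
  classical
  set T : Finset (ℕ × ℕ) := (range L ×ˢ range L').filter fun p =>
    let_ h p.1 ≠ let_ h' p.2 ∧ (p.2 + 1 < L' → let_ h p.1 ≠ (let_ h' (p.2 + 1))⁻¹) with hT
  have memT : ∀ p, p ∈ T ↔ (p.1 < L ∧ p.2 < L') ∧
      let_ h p.1 ≠ let_ h' p.2 ∧ (p.2 + 1 < L' → let_ h p.1 ≠ (let_ h' (p.2 + 1))⁻¹) := by
    intro p
    rw [hT, mem_filter, mem_product, mem_range, mem_range]
  have key : ∀ p q : ℕ × ℕ, p ∈ T → q ∈ T → q.1 < p.1 →
      h (p.1 + 1) * (h' (p.2 + 1))⁻¹ ≠ h (q.1 + 1) * (h' (q.2 + 1))⁻¹ := by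
    intro p q hp hq hlt he
    obtain ⟨⟨hp1, hp2⟩, hp3, hp4⟩ := (memT p).1 hp
    obtain ⟨⟨hq1, hq2⟩, -, -⟩ := (memT q).1 hq
    have he' : (h (q.1 + 1))⁻¹ * h (p.1 + 1) = (h' (q.2 + 1))⁻¹ * h' (p.2 + 1) := by
      have := congrArg (fun z => (h (q.1 + 1))⁻¹ * z * h' (p.2 + 1)) he
      simpa [mul_assoc] using this
    rcases hQ.last hh hh' (by omega : q.1 + 1 < p.1 + 1) (by omega) (by omega : p.2 + 1 ≤ L')
      (by omega : q.2 + 1 ≤ L') he' with ⟨h1, h2⟩ | ⟨h1, h2⟩
    · exact hp3 (by simpa using h2)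
    · refine hp4 (by omega) (by simpa using h2)
  have hinj : Set.InjOn (fun p : ℕ × ℕ => h (p.1 + 1) * (h' (p.2 + 1))⁻¹) (T : Set (ℕ × ℕ)) := by
    intro p hp q hq he
    have hp' : p ∈ T := mem_coe.1 hp
    have hq' : q ∈ T := mem_coe.1 hq
    rcases lt_trichotomy p.1 q.1 with hlt | heq | hlt
    · exact absurd he.symm (key q p hq' hp' hlt)
    · have he' : h (p.1 + 1) * (h' (p.2 + 1))⁻¹ = h (q.1 + 1) * (h' (q.2 + 1))⁻¹ := he
      rw [heq] at he'
      have h2 : h' (p.2 + 1) = h' (q.2 + 1) := inv_injective (mul_left_cancel he')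
      obtain ⟨⟨-, hp2⟩, -⟩ := (memT p).1 hp'
      obtain ⟨⟨-, hq2⟩, -⟩ := (memT q).1 hq'
      refine Prod.ext heq ?_
      rcases lt_trichotomy p.2 q.2 with h3 | h3 | h3
      · exact absurd h2 (hQ.inj hh' (by omega) (by omega))
      · exact h3
      · exact absurd h2.symm (hQ.inj hh' (by omega) (by omega))
    · exact absurd he (key p q hp' hq' hlt)
  have hcard : T.card ≤ Fintype.card G := by
    rw [← Finset.card_image_of_injOn hinj]
    exact Finset.card_le_univ _
  refine le_trans ?_ hcard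
  -- fibres of `T` over the first coordinate
  have h1 : T.card = ∑ i ∈ range L, (T.filter fun p => p.1 = i).card :=
    Finset.card_eq_sum_card_fiberwise (f := Prod.fst) (t := range L) (fun p hp => by
      have := (memT p).1 (mem_coe.1 hp)
      exact mem_coe.2 (mem_range.2 this.1.1))
  rw [h1]
  refine sum_le_sum fun i hi => ?_
  have hi' := mem_range.1 hi
  -- the complement
  set A := (range L').filter fun k => let_ h' k = let_ h i with hA
  set B := (range L').filter fun k => let_ h' k = (let_ h i)⁻¹ with hB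
  have hbb : bb h' L' (let_ h i) = A.card + B.card := rfl
  have hsub : range L' ⊆ ((T.filter fun p => p.1 = i).image Prod.snd) ∪ (A ∪ B.image (· - 1)) := by
    intro k hk
    have hk' := mem_range.1 hk
    by_cases h2 : let_ h' k = let_ h i
    · exact mem_union_right _ (mem_union_left _ (mem_filter.2 ⟨hk, h2⟩))
    · by_cases h3 : k + 1 < L' ∧ let_ h i = (let_ h' (k + 1))⁻¹
      · refine mem_union_right _ (mem_union_right _ (mem_image.2 ⟨k + 1, ?_, by simp⟩))
        exact mem_filter.2 ⟨mem_range.2 h3.1, by rw [h3.2, inv_inv]⟩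
      · refine mem_union_left _ (mem_image.2 ⟨(i, k), ?_, rfl⟩)
        refine mem_filter.2 ⟨(memT _).2 ⟨⟨hi', hk'⟩, fun h4 => h2 h4.symm, fun h4 h5 => h3 ⟨h4, h5⟩⟩,
          rfl⟩
  have h4 := card_le_card hsub
  rw [card_range] at h4
  have h5 := card_union_le ((T.filter fun p => p.1 = i).image Prod.snd) (A ∪ B.image (· - 1))
  have h6 := card_union_le A (B.image (· - 1))
  have h7 : (B.image (· - 1)).card ≤ B.card := card_image_le
  have h8 : ((T.filter fun p => p.1 = i).image Prod.snd).card ≤ (T.filter fun p => p.1 = i).card :=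
    card_image_le
  rw [hbb]
  omega

/-- Heavy letters with respect to a path. -/
def Dset (h : ℕ → G) (L : ℕ) : Finset G := univ.filter fun x => 3 * L ≤ 4 * bb h L x

theorem mem_D {h : ℕ → G} {L : ℕ} {x : G} : x ∈ Dset h L ↔ 3 * L ≤ 4 * bb h L x := by
  unfold Dset
  rw [mem_filter]
  exact ⟨fun h => h.2, fun h => ⟨mem_univ _, h⟩⟩

theorem inv_mem_D {h : ℕ → G} {L : ℕ} {x : G} (hx : x ∈ Dset h L) : x⁻¹ ∈ Dset h L := by
  rw [mem_D, bb_inv]
  exact mem_D.1 hx

/-- Few letters are not heavy. -/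
theorem Sys.light (hQ : Sys Q) {h h' : ℕ → G} {L L' : ℕ} (hh : Q h L) (hh' : Q h' L') :
    ((range L').filter fun i => let_ h' i ∉ Dset h L).card * L ≤ 4 * Fintype.card G := by
  have h1 := hQ.count hh' hh
  have h2 : ∑ i ∈ (range L').filter (fun i => let_ h' i ∉ Dset h L), L ≤
      ∑ i ∈ (range L').filter (fun i => let_ h' i ∉ Dset h L), 4 * (L - bb h L (let_ h' i)) := by
    refine sum_le_sum fun i hi => ?_
    have h3 := (mem_filter.1 hi).2
    rw [mem_D] at h3
    omega
  rw [sum_const, smul_eq_mul] at h2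
  have h3 : ∑ i ∈ (range L').filter (fun i => let_ h' i ∉ Dset h L), 4 * (L - bb h L (let_ h' i)) ≤
      ∑ i ∈ range L', 4 * (L - bb h L (let_ h' i)) :=
    sum_le_sum_of_subset (filter_subset _ _)
  have h4 : ∑ i ∈ range L', 4 * (L - bb h L (let_ h' i)) =
      4 * ∑ i ∈ range L', (L - bb h L (let_ h' i)) := (mul_sum _ _ _).symm
  omega

omit [Fintype G] in
theorem sum_cnt_le (h : ℕ → G) (L : ℕ) (D : Finset G) :
    ∑ x ∈ D, cnt h L x = ((range L).filter fun k => let_ h k ∈ D).card := by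
  rw [Finset.card_eq_sum_card_fiberwise (f := let_ h) (t := D)]
  · refine sum_congr rfl fun x hx => ?_
    unfold cnt
    congr 1
    ext k
    simp only [mem_filter]
    constructor
    · rintro ⟨h1, h2⟩
      exact ⟨⟨h1, h2 ▸ hx⟩, h2⟩
    · rintro ⟨⟨h1, _⟩, h2⟩
      exact ⟨h1, h2⟩
  · intro k hk
    exact mem_coe.2 (mem_filter.1 (mem_coe.1 hk)).2

/-- There are exactly two heavy letters if the path is long. -/
theorem Sys.card_D (hQ : Sys Q) {h : ℕ → G} {L : ℕ} (hh : Q h L)
    (hL : 16 * Fintype.card G ≤ L * L) : (Dset h L).card = 2 := by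
  have hN : 0 < Fintype.card G := Fintype.card_pos
  have hL4 : 4 ≤ L := by
    by_contra hcon
    have : L ≤ 3 := by omega
    have := Nat.mul_le_mul this this
    omega
  have hlt := hQ.light hh hh
  set E := ((range L).filter fun i => let_ h i ∉ Dset h L).card with hE
  have hsum := sum_cnt_le h L (Dset h L)
  have hadd : ((range L).filter fun k => let_ h k ∈ Dset h L).card + E = L := by
    rw [hE]
    have := Finset.card_filter_add_card_filter_not (s := range L) (fun k => let_ h k ∈ Dset h L)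
    rw [card_range] at this
    exact this
  have hEL : 4 * E ≤ L := by
    have : 4 * E * L ≤ L * L := by nlinarith
    exact Nat.le_of_mul_le_mul_right this (by omega)
  -- upper bound
  have hle : (Dset h L).card ≤ 2 := by
    have h1 : ∑ x ∈ Dset h L, bb h L x = 2 * ∑ x ∈ Dset h L, cnt h L x := by
      unfold bb
      rw [sum_add_distrib, two_mul]
      congr 1
      refine sum_nbij' (fun x => x⁻¹) (fun x => x⁻¹) (fun x hx => inv_mem_D hx)
        (fun x hx => inv_mem_D hx) (fun x _ => inv_inv x) (fun x _ => inv_inv x) (fun x _ => rfl)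
    have h2 : (Dset h L).card * (3 * L) ≤ 4 * ∑ x ∈ Dset h L, bb h L x := by
      rw [mul_sum, ← smul_eq_mul, ← sum_const]
      exact sum_le_sum fun x hx => mem_D.1 hx
    rw [h1, hsum] at h2
    have h3 : ((range L).filter fun k => let_ h k ∈ Dset h L).card ≤ L := by omega
    by_contra hcon
    have h4 : 3 * (3 * L) ≤ (Dset h L).card * (3 * L) := Nat.mul_le_mul_right _ (by omega)
    omega
  -- lower bound
  by_contra hcon
  have hle1 : (Dset h L).card ≤ 1 := by omega
  have hne : (Dset h L).Nonempty := by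
    rw [nonempty_iff_ne_empty]
    intro hemp
    rw [hemp] at hsum
    simp at hsum
    have : ((range L).filter fun k => let_ h k ∈ Dset h L).card = 0 := by
      rw [hemp]
      simp
    omega
  obtain ⟨t, ht⟩ := hne
  have hall : ∀ x ∈ Dset h L, x = t := fun x hx => Finset.card_le_one.1 hle1 x hx t ht
  have htt : t⁻¹ = t := hall _ (inv_mem_D ht)
  -- consecutive letters are not both `t`
  set A := (range L).filter fun k => let_ h k ∈ Dset h L with hA
  have hA' : ∀ k ∈ A, k < L ∧ let_ h k = t := fun k hk =>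
    ⟨mem_range.1 (mem_filter.1 hk).1, hall _ (mem_filter.1 hk).2⟩
  have hdisj : Disjoint A (A.image (· + 1)) := by
    rw [Finset.disjoint_left]
    intro k hk hk'
    obtain ⟨j, hj, rfl⟩ := mem_image.1 hk'
    obtain ⟨h1, h2⟩ := hA' _ hk
    obtain ⟨h3, h4⟩ := hA' _ hj
    have h5 : h (j + 2) = h j := by
      unfold let_ at h2 h4
      have e1 : h (j + 1) = h j * t := by rw [← h4]; group
      have e2 : h (j + 2) = h (j + 1) * t := by
        have : (h (j + 1))⁻¹ * h (j + 1 + 1) = t := h2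
        rw [← this]
        group
      rw [e2, e1, mul_assoc]
      have : t * t = 1 := by
        rw [← inv_eq_iff_mul_eq_one]
        exact htt
      rw [this, mul_one]
    exact hQ.inj hh (by omega : j < j + 2) (by omega) h5.symm
  have hcard : (A ∪ A.image (· + 1)).card = A.card + A.card := by
    rw [card_union_of_disjoint hdisj, card_image_of_injective _ (fun a b hab => by simpa using hab)]
  have hsub : A ∪ A.image (· + 1) ⊆ range (L + 1) := by
    intro k hk
    rcases mem_union.1 hk with hk | hk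
    · exact mem_range.2 (by have := (hA' k hk).1; omega)
    · obtain ⟨j, hj, rfl⟩ := mem_image.1 hk
      exact mem_range.2 (by have := (hA' j hj).1; show j + 1 < L + 1; omega)
  have h9 := card_le_card hsub
  rw [hcard, card_range] at h9
  omega

omit [Fintype G] in
/-- There is a long path with heavy letters only. -/
theorem Sys.run (hQ : Sys Q) {h : ℕ → G} {L R : ℕ} (hh : Q h L) (D : Finset G)
    (hR : ∀ h' n, Q h' n → (∀ i < n, let_ h' i ∈ D) → n ≤ R) :
    L < (((range L).filter fun i => let_ h i ∉ D).card + 1) * (R + 1) := by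
  classical
  by_contra hcon
  push Not at hcon
  set E := ((range L).filter fun i => let_ h i ∉ D).card with hE
  -- each window contains a light letter
  have hw : ∀ j : ℕ, j ≤ E → ∃ i, j * (R + 1) ≤ i ∧ i < (j + 1) * (R + 1) ∧ let_ h i ∉ D := by
    intro j hj
    by_contra hno
    push Not at hno
    have h1 : (j + 1) * (R + 1) ≤ (E + 1) * (R + 1) := Nat.mul_le_mul_right _ (by omega)
    have h2 : (j + 1) * (R + 1) = j * (R + 1) + (R + 1) := by ring
    have h3 := hQ.sub h L (j * (R + 1)) (R + 1) hh (by omega)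
    have h4 := hR _ _ h3 (fun i hi => by
      have := hno (j * (R + 1) + i) (by omega) (by omega)
      exact this)
    omega
  choose! f hf using hw
  have hinj : Set.InjOn f (range (E + 1) : Finset ℕ) := by
    intro a ha b hb hab
    have ha' : a ≤ E := by have := mem_range.1 (mem_coe.1 ha); omega
    have hb' : b ≤ E := by have := mem_range.1 (mem_coe.1 hb); omega
    obtain ⟨a1, a2, -⟩ := hf a ha'
    obtain ⟨b1, b2, -⟩ := hf b hb'
    have h1 : a < b + 1 := by
      by_contra hlt
      have := Nat.mul_le_mul_right (R + 1) (by omega : b + 1 ≤ a)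
      omega
    have h2 : b < a + 1 := by
      by_contra hlt
      have := Nat.mul_le_mul_right (R + 1) (by omega : a + 1 ≤ b)
      omega
    omega
  have hsub : (range (E + 1)).image f ⊆ (range L).filter fun i => let_ h i ∉ D := by
    intro i hi
    obtain ⟨j, hj, rfl⟩ := mem_image.1 hi
    have hj' : j ≤ E := by have := mem_range.1 hj; omega
    obtain ⟨h1, h2, h3⟩ := hf j hj'
    have h4 := Nat.mul_le_mul_right (R + 1) (by omega : j + 1 ≤ E + 1)
    exact mem_filter.2 ⟨mem_range.2 (by omega), h3⟩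
  have h5 := card_le_card hsub
  rw [card_image_of_injOn hinj, card_range] at h5
  omega

end count

end Pool.Agent.Q251.IPS
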