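import Pool.Agent.Q251.IPS.Core

/-! # Invariant consistent path systems: reduced words and the metric -/

set_option autoImplicit false

namespace Pool.Agent.Q251.IPS

open Finset

universe u

variable {G : Type u} [Group G] {Q : (ℕ → G) → ℕ → Prop}

/-- A reduced sequence over `D`. -/
def Red (D : Finset G) (d : ℕ → G) (n : ℕ) : Prop :=
  (∀ i < n, d i ∈ D) ∧ ∀ i, i + 1 < n → d (i + 1) ≠ (d i)⁻¹

theorem Sys.red (hQ : Sys Q) {h : ℕ → G} {L : ℕ} {D : Finset G} (hh : Q h L)
    (hD : ∀ i < L, let_ h i ∈ D) : Red D (let_ h) L := by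
  refine ⟨hD, fun i hi he => ?_⟩
  unfold let_ at he
  have h1 : h (i + 1 + 1) = h i := by
    have := congrArg (fun z => h (i + 1) * z) he
    simpa using this
  exact hQ.inj hh (by omega : i < i + 1 + 1) (by omega) h1.symm

theorem red_unique {D : Finset G} (hD2 : D.card = 2) (hinv : ∀ x ∈ D, x⁻¹ ∈ D) {d e : ℕ → G}
    {n : ℕ} (hd : Red D d n) (he : Red D e n) (h0 : d 0 = e 0) : ∀ i < n, d i = e i := by
  classical
  intro i
  induction i with
  | zero => exact fun _ => h0
  | succ i ih =>
    intro hi
    have h1 := ih (by omega)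
    have h2 := hd.2 i hi
    have h3 := he.2 i hi
    rw [h1] at h2
    have h4 := hd.1 (i + 1) hi
    have h5 := he.1 (i + 1) hi
    have h6 := hinv _ (he.1 i (by omega))
    by_contra hne
    have h7 : ({d (i + 1), e (i + 1), (e i)⁻¹} : Finset G) ⊆ D := by
      intro x hx
      simp only [mem_insert, mem_singleton] at hx
      rcases hx with rfl | rfl | rfl
      · exact h4
      · exact h5
      · exact h6
    have h8 := card_le_card h7
    rw [hD2, card_eq_three.2 ⟨_, _, _, hne, h2, h3, rfl⟩] at h8
    omega

/-- Every reduced word over the heavy letters shorter than the longest run is a path. -/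
theorem Sys.word (hQ : Sys Q) {h : ℕ → G} {R n : ℕ} {D : Finset G} (hh : Q h R)
    (hD : ∀ i < R, let_ h i ∈ D) (hD2 : D.card = 2) (hinv : ∀ x ∈ D, x⁻¹ ∈ D) (hn : n < R)
    (hn0 : 0 < n) (d : ℕ → G) (hd : Red D d n) :
    ∃ h', Q h' n ∧ ∀ i < n, let_ h' i = d i := by
  classical
  have hred := hQ.red hh hD
  -- it is enough to find a path over `D` with the right first letter
  have key : ∀ h', Q h' n → (∀ i < n, let_ h' i ∈ D) → let_ h' 0 = d 0 →
      ∃ h', Q h' n ∧ ∀ i < n, let_ h' i = d i := fun h' h1 h2 h3 =>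
    ⟨h', h1, red_unique hD2 hinv (hQ.red h1 h2) hd h3⟩
  have hA : Q (fun t => h (0 + t)) n := hQ.sub h R 0 n hh (by omega)
  have hAl : ∀ i, let_ (fun t => h (0 + t)) i = let_ h i := by
    intro i
    unfold let_
    simp
  have hB : Q (fun t => h (1 + t)) n := hQ.sub h R 1 n hh (by omega)
  have hBl : ∀ i, let_ (fun t => h (1 + t)) i = let_ h (i + 1) := by
    intro i
    unfold let_
    show (h (1 + i))⁻¹ * h (1 + (i + 1)) = _
    rw [show 1 + i = i + 1 by omega, show 1 + (i + 1) = i + 1 + 1 by omega]
  have hd0 := hd.1 0 hn0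
  by_cases hA0 : let_ h 0 = d 0
  · exact key _ hA (fun i hi => by rw [hAl]; exact hD i (by omega)) (by rw [hAl, hA0])
  by_cases hB0 : let_ h 1 = d 0
  · exact key _ hB (fun i hi => by rw [hBl]; exact hD (i + 1) (by omega)) (by rw [hBl]; exact hB0)
  -- the run is constant
  have h01 : let_ h 0 = let_ h 1 := by
    by_contra hne
    have h7 : ({let_ h 0, let_ h 1, d 0} : Finset G) ⊆ D := by
      intro x hx
      simp only [mem_insert, mem_singleton] at hx
      rcases hx with rfl | rfl | rfl
      · exact hD 0 (by omega)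
      · exact hD 1 (by omega)
      · exact hd0
    have h8 := card_le_card h7
    rw [hD2, card_eq_three.2 ⟨_, _, _, hne, hA0, hB0, rfl⟩] at h8
    omega
  have hne0 : let_ h 0 ≠ (let_ h 0)⁻¹ := by
    have := hred.2 0 (by omega)
    rw [← h01] at this
    exact this
  have hconst : ∀ i < R, let_ h i = let_ h 0 := by
    intro i
    induction i with
    | zero => exact fun _ => rfl
    | succ i ih =>
      intro hi
      have h1 := ih (by omega)
      have h2 := hred.2 i hi
      rw [h1] at h2
      by_contra hne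
      have h7 : ({let_ h (i + 1), let_ h 0, (let_ h 0)⁻¹} : Finset G) ⊆ D := by
        intro x hx
        simp only [mem_insert, mem_singleton] at hx
        rcases hx with rfl | rfl | rfl
        · exact hD _ hi
        · exact hD 0 (by omega)
        · exact hinv _ (hD 0 (by omega))
      have h8 := card_le_card h7
      rw [hD2, card_eq_three.2 ⟨_, _, _, hne, h2, hne0, rfl⟩] at h8
      omega
  have hd0' : d 0 = (let_ h 0)⁻¹ := by
    by_contra hne
    have h7 : ({d 0, let_ h 0, (let_ h 0)⁻¹} : Finset G) ⊆ D := by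
      intro x hx
      simp only [mem_insert, mem_singleton] at hx
      rcases hx with rfl | rfl | rfl
      · exact hd0
      · exact hD 0 (by omega)
      · exact hinv _ (hD 0 (by omega))
    have h8 := card_le_card h7
    rw [hD2, card_eq_three.2 ⟨_, _, _, fun h => hA0 h.symm, hne, hne0, rfl⟩] at h8
    omega
  have hC : Q (fun t => h (0 + (n - t))) n := hQ.rev _ _ hA
  have hCl : ∀ i < n, let_ (fun t => h (0 + (n - t))) i = (let_ h 0)⁻¹ := by
    intro i hi
    have h1 := hconst (n - i - 1) (by omega)
    unfold let_ at h1 ⊢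
    show (h (0 + (n - i)))⁻¹ * h (0 + (n - (i + 1))) = _
    rw [← h1, show 0 + (n - i) = n - i - 1 + 1 by omega,
      show 0 + (n - (i + 1)) = n - i - 1 by omega]
    group
  exact key _ hC (fun i hi => by rw [hCl i hi]; exact hinv _ (hD 0 (by omega)))
    (by rw [hCl 0 hn0, hd0'])

section metric

variable (D : Finset G) (R : ℕ)

/-- The truncated word length with respect to `D`. -/
def WL (x : G) (n : ℕ) : Prop := R ≤ n ∨ ∃ l : List G, (∀ y ∈ l, y ∈ D) ∧ l.length = n ∧ l.prod = x

theorem exists_WL (x : G) : ∃ n, WL D R x n := ⟨R, Or.inl le_rfl⟩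

open Classical in
/-- The truncated word length. -/
noncomputable def wl (x : G) : ℕ := Nat.find (exists_WL D R x)

theorem wl_spec (x : G) : WL D R x (wl D R x) := by
  classical
  exact Nat.find_spec (exists_WL D R x)

theorem wl_le {x : G} {n : ℕ} (h : WL D R x n) : wl D R x ≤ n := by
  classical
  exact Nat.find_min' (exists_WL D R x) h

theorem wl_le_R (x : G) : wl D R x ≤ R := wl_le D R (Or.inl le_rfl)

theorem wl_one : wl D R 1 = 0 :=
  Nat.le_zero.1 (wl_le D R (Or.inr ⟨[], by simp, rfl, rfl⟩))

theorem wl_pos (hR : 1 ≤ R) {x : G} (hx : x ≠ 1) : 1 ≤ wl D R x := by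
  by_contra hcon
  have h0 : wl D R x = 0 := by omega
  rcases wl_spec D R x with h | ⟨l, -, h2, h3⟩
  · omega
  · rw [h0, List.length_eq_zero_iff] at h2
    rw [h2] at h3
    exact hx h3.symm

theorem wl_mul (x y : G) : wl D R (x * y) ≤ wl D R x + wl D R y := by
  refine wl_le D R ?_
  rcases wl_spec D R x with h | ⟨l, h1, h2, h3⟩
  · exact Or.inl (by omega)
  rcases wl_spec D R y with h' | ⟨l', h1', h2', h3'⟩
  · exact Or.inl (by omega)
  refine Or.inr ⟨l ++ l', ?_, by rw [List.length_append, h2, h2'], by rw [List.prod_append, h3, h3']⟩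
  intro z hz
  rcases List.mem_append.1 hz with hz | hz
  · exact h1 z hz
  · exact h1' z hz

theorem wl_inv_le (hinv : ∀ x ∈ D, x⁻¹ ∈ D) (x : G) : wl D R x⁻¹ ≤ wl D R x := by
  refine wl_le D R ?_
  rcases wl_spec D R x with h | ⟨l, h1, h2, h3⟩
  · exact Or.inl h
  refine Or.inr ⟨(l.map fun y => y⁻¹).reverse, ?_, by simp [h2], ?_⟩
  · intro z hz
    rw [List.mem_reverse, List.mem_map] at hz
    obtain ⟨y, hy, rfl⟩ := hz
    exact hinv y (h1 y hy)
  · rw [← h3, List.prod_inv_reverse]

theorem wl_inv (hinv : ∀ x ∈ D, x⁻¹ ∈ D) (x : G) : wl D R x⁻¹ = wl D R x := by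
  refine le_antisymm (wl_inv_le D R hinv x) ?_
  have := wl_inv_le D R hinv x⁻¹
  rwa [inv_inv] at this

theorem wl_mem {x : G} (hx : x ∈ D) : wl D R x ≤ 1 :=
  wl_le D R (Or.inr ⟨[x], by simpa using hx, rfl, by simp⟩)

/-- A shortest word is reduced. -/
theorem exists_red {x : G} (hx : wl D R x < R) :
    ∃ d : ℕ → G, Red D d (wl D R x) ∧ ((List.range (wl D R x)).map d).prod = x := by
  rcases wl_spec D R x with h | ⟨l, h1, h2, h3⟩
  · omega
  set n := wl D R x with hn
  refine ⟨fun i => l.getD i 1, ⟨fun i hi => ?_, fun i hi he => ?_⟩, ?_⟩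
  · show l.getD i 1 ∈ D
    rw [List.getD_eq_getElem _ _ (by omega)]
    exact h1 _ (List.getElem_mem _)
  · have he' : l.getD (i + 1) 1 = (l.getD i 1)⁻¹ := he
    rw [List.getD_eq_getElem _ _ (by omega), List.getD_eq_getElem _ _ (by omega)] at he'
    have h4 : WL D R x (n - 2) := by
      refine Or.inr ⟨l.take i ++ l.drop (i + 2), ?_, ?_, ?_⟩
      · intro z hz
        rcases List.mem_append.1 hz with hz | hz
        · exact h1 z (List.mem_of_mem_take hz)
        · exact h1 z (List.mem_of_mem_drop hz)
      · rw [List.length_append, List.length_take, List.length_drop, h2]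
        omega
      · have e1 : l = l.take i ++ (l[i] :: l[i + 1] :: l.drop (i + 2)) := by
          conv_lhs => rw [← List.take_append_drop i l]
          rw [List.drop_eq_getElem_cons (by omega), List.drop_eq_getElem_cons (by omega)]
        rw [← h3]
        conv_rhs => rw [e1]
        rw [List.prod_append, List.prod_append, List.prod_cons, List.prod_cons, he',
          mul_inv_cancel_left]
    have h5 := wl_le D R h4
    omega
  · have e2 : (List.range n).map (fun i => l.getD i 1) = l := by
      apply List.ext_getElem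
      · simp [h2]
      · intro i h4 h5
        rw [List.getElem_map, List.getElem_range, List.getD_eq_getElem _ _ h5]
    rw [e2, h3]

end metric

/-- Telescoping. -/
theorem prod_letters (h : ℕ → G) (n : ℕ) :
    h 0 * ((List.range n).map (let_ h)).prod = h n := by
  induction n with
  | zero => simp
  | succ n ih =>
    rw [List.range_succ, List.map_append, List.prod_append, ← mul_assoc, ih]
    unfold let_
    simp

/-- The axioms of a metric. -/
structure IsMet {V : Type u} (ρ : V → V → ℝ) : Prop where
  self : ∀ x, ρ x x = 0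
  pos : ∀ x y, x ≠ y → 0 < ρ x y
  symm : ∀ x y, ρ x y = ρ y x
  triangle : ∀ x y z, ρ x z ≤ ρ x y + ρ y z

theorem Sys.len_lt [Fintype G] (hQ : Sys Q) {h : ℕ → G} {L : ℕ} (hh : Q h L) :
    L < Fintype.card G := by
  classical
  have hinj : Set.InjOn h (range (L + 1) : Finset ℕ) := by
    intro a ha b hb hab
    have ha' := mem_range.1 (mem_coe.1 ha)
    have hb' := mem_range.1 (mem_coe.1 hb)
    rcases lt_trichotomy a b with h1 | h1 | h1
    · exact absurd hab (hQ.inj hh h1 (by omega))
    · exact h1
    · exact absurd hab.symm (hQ.inj hh h1 (by omega))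
  have h1 := card_image_of_injOn hinj
  have h2 := card_le_univ ((range (L + 1)).image h)
  rw [h1, card_range] at h2
  omega

/-- The bound. -/
theorem Sys.bound [Fintype G] (hQ : Sys Q) : ∃ ρ : G → G → ℝ, IsMet ρ ∧
    ∀ h L, Q h L → ∑ t ∈ range L, ρ (h t) (h (t + 1)) ≤
      5 * √(Fintype.card G : ℝ) * ρ (h 0) (h L) := by
  classical
  set N := Fintype.card G with hN
  have hN1 : 1 ≤ N := Fintype.card_pos
  set s : ℝ := √(N : ℝ) with hs
  have hss : s * s = N := Real.mul_self_sqrt (by positivity)
  have hs0 : 0 ≤ s := Real.sqrt_nonneg _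
  have hs1 : 1 ≤ s := by
    rw [hs]
    exact Real.one_le_sqrt.2 (by exact_mod_cast hN1)
  by_cases hlong : ∃ h L, Q h L ∧ 16 * N ≤ L * L
  · -- the longest path
    obtain ⟨h, L, hh, hL, hmax⟩ : ∃ h L, Q h L ∧ 16 * N ≤ L * L ∧ ∀ h' L', Q h' L' → L' ≤ L := by
      obtain ⟨h0, L0, hh0, hL0⟩ := hlong
      have h1 : ∃ h', Q h' (Nat.findGreatest (fun L => ∃ h', Q h' L) N) :=
        Nat.findGreatest_spec (P := fun L => ∃ h', Q h' L) (hQ.len_lt hh0).le ⟨h0, hh0⟩
      obtain ⟨h', hh'⟩ := h1
      have h2 : ∀ h' L', Q h' L' → L' ≤ Nat.findGreatest (fun L => ∃ h', Q h' L) N :=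
        fun h' L' hq => Nat.le_findGreatest (hQ.len_lt hq).le ⟨h', hq⟩
      exact ⟨h', _, hh', hL0.trans (Nat.mul_self_le_mul_self (h2 _ _ hh0)), h2⟩
    set D := Dset h L with hD
    have hD2 : D.card = 2 := hQ.card_D hh hL
    have hinv : ∀ x ∈ D, x⁻¹ ∈ D := fun x hx => inv_mem_D hx
    have hlight : ∀ h' L', Q h' L' →
        ((range L').filter fun i => let_ h' i ∉ D).card * L ≤ 4 * N :=
      fun h' L' hq => hQ.light hh hq
    have hL4 : 4 ≤ L := by
      by_contra hcon
      have h1 : L ≤ 3 := by omega
      have := Nat.mul_le_mul h1 h1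
      omega
    have hLs : 4 * s ≤ L := by
      have h1 : (4 * s) * (4 * s) ≤ (L : ℝ) * L := by
        have : (16 * N : ℝ) ≤ (L : ℝ) * L := by exact_mod_cast hL
        nlinarith
      by_contra hc
      push Not at hc
      have h2 : (0 : ℝ) ≤ L := Nat.cast_nonneg _
      nlinarith
    have hE : ∀ h' L', Q h' L' →
        (((range L').filter fun i => let_ h' i ∉ D).card : ℝ) ≤ s := by
      intro h' L' hq
      have h1 := hlight h' L' hq
      have h2 : (((range L').filter fun i => let_ h' i ∉ D).card : ℝ) * L ≤ 4 * N := by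
        exact_mod_cast h1
      by_contra hcon
      push Not at hcon
      have h3 : s * (4 * s) < (((range L').filter fun i => let_ h' i ∉ D).card : ℝ) * L := by
        have : s * (4 * s) ≤ s * L := mul_le_mul_of_nonneg_left hLs hs0
        have h4 : s * L < (((range L').filter fun i => let_ h' i ∉ D).card : ℝ) * L :=
          mul_lt_mul_of_pos_right hcon (by linarith)
        linarith
      linarith
    -- the longest run
    obtain ⟨hr, R, hhr, hrD, hRmax⟩ : ∃ hr R, Q hr R ∧ (∀ i < R, let_ hr i ∈ D) ∧
        ∀ h' n, Q h' n → (∀ i < n, let_ h' i ∈ D) → n ≤ R := by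
      have h0 := hQ.sub h L 0 0 hh (by omega)
      have h1 : ∃ h', Q h' (Nat.findGreatest (fun L => ∃ h', Q h' L ∧ ∀ i < L, let_ h' i ∈ D) N) ∧
          ∀ i < (Nat.findGreatest (fun L => ∃ h', Q h' L ∧ ∀ i < L, let_ h' i ∈ D) N),
            let_ h' i ∈ D :=
        Nat.findGreatest_spec (P := fun L => ∃ h', Q h' L ∧ ∀ i < L, let_ h' i ∈ D)
          (Nat.zero_le N) ⟨_, h0, fun i hi => absurd hi (Nat.not_lt_zero i)⟩
      obtain ⟨h', hh', hd'⟩ := h1
      exact ⟨h', _, hh', hd', fun h' L' hq hd => Nat.le_findGreatest (hQ.len_lt hq).le ⟨h', hq, hd⟩⟩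
    have hrun := hQ.run hh D hRmax
    have hR1 : 1 ≤ R := by
      by_contra hcon
      have hR0 : R = 0 := by omega
      rw [hR0] at hrun
      have h1 := hlight h L hh
      have h2 : L * L ≤ 4 * N := by
        refine le_trans ?_ h1
        exact Nat.mul_le_mul_right _ (by omega)
      omega
    have hRr : (1 : ℝ) ≤ R := by exact_mod_cast hR1
    refine ⟨fun x y => (wl D R (x⁻¹ * y) : ℝ) / R, ⟨?_, ?_, ?_, ?_⟩, ?_⟩
    · intro x
      simp only [inv_mul_cancel, wl_one]
      simp
    · intro x y hxy
      have h1 := wl_pos D R hR1 (x := x⁻¹ * y) (fun h => hxy (by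
        rwa [inv_mul_eq_one] at h))
      have h2 : (1 : ℝ) ≤ wl D R (x⁻¹ * y) := by exact_mod_cast h1
      positivity
    · intro x y
      have h1 : y⁻¹ * x = (x⁻¹ * y)⁻¹ := by group
      simp only [h1, wl_inv D R hinv]
    · intro x y z
      rw [← add_div]
      refine div_le_div_of_nonneg_right ?_ (by linarith)
      have h1 := wl_mul D R (x⁻¹ * y) (y⁻¹ * z)
      rw [show x⁻¹ * y * (y⁻¹ * z) = x⁻¹ * z by group] at h1
      exact_mod_cast h1
    · intro h' n hq
      have e0 : ∀ t, (h' t)⁻¹ * h' (t + 1) = let_ h' t := fun t => rfl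
      simp only [e0]
      rw [← Finset.sum_div, ← mul_div_assoc]
      refine div_le_div_of_nonneg_right ?_ (by linarith)
      set x := (h' 0)⁻¹ * h' n with hx
      rcases Nat.lt_or_ge (wl D R x) R with hlt | hge
      · -- a short word
        obtain ⟨d, hd, hdp⟩ := exists_red D R hlt
        set m := wl D R x with hm
        have hall : (∀ i < n, let_ h' i ∈ D) ∧ n = m := by
          rcases Nat.eq_zero_or_pos m with hm0 | hm0
          · rw [hm0] at hdp
            have h1 : x = 1 := by rw [← hdp]; simp
            have h2 : h' 0 = h' n := by rw [hx, inv_mul_eq_one] at h1; exact h1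
            have h3 : n = 0 := by
              by_contra hne
              exact hQ.inj hq (Nat.pos_of_ne_zero hne) le_rfl h2
            exact ⟨fun i hi => by omega, by omega⟩
          · obtain ⟨h2, hq2, hl2⟩ := hQ.word hhr hrD hD2 hinv hlt hm0 d hd
            have h3 := hQ.mul _ _ (h' 0 * (h2 0)⁻¹) hq2
            have h4 : h2 m = h2 0 * x := by
              rw [← prod_letters h2 m, ← hdp]
              congr 2
              exact List.map_congr_left fun i hi => hl2 i (List.mem_range.1 hi)
            obtain ⟨h5, h6⟩ := hQ.uniq _ _ _ _ hq h3 (by simp) (by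
              show h' n = h' 0 * (h2 0)⁻¹ * h2 m
              rw [h4, hx]
              group)
            refine ⟨fun i hi => ?_, h5⟩
            have h7 : let_ h' i = let_ h2 i := by
              unfold let_
              rw [h6 i (by omega), h6 (i + 1) (by omega)]
              group
            rw [h7, hl2 i (by omega)]
            exact hd.1 i (by omega)
        obtain ⟨hall, hnm⟩ := hall
        have h1 : ∑ t ∈ range n, (wl D R (let_ h' t) : ℝ) ≤ ∑ t ∈ range n, (1 : ℝ) := by
          refine sum_le_sum fun t ht => ?_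
          exact_mod_cast wl_mem D R (hall t (mem_range.1 ht))
        rw [sum_const, card_range, nsmul_eq_mul, mul_one, hnm] at h1
        rw [hnm]
        refine h1.trans ?_
        have h2 : (0 : ℝ) ≤ m := Nat.cast_nonneg _
        nlinarith
      · have hwR : wl D R x = R := le_antisymm (wl_le_R D R x) hge
        rw [hwR]
        have h1 : ∑ t ∈ range n, (wl D R (let_ h' t) : ℝ) ≤
            n + (((range n).filter fun i => let_ h' i ∉ D).card : ℝ) * R := by
          have h2 : ∀ t ∈ range n, (wl D R (let_ h' t) : ℝ) ≤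
              1 + (if let_ h' t ∉ D then (R : ℝ) else 0) := by
            intro t ht
            by_cases h3 : let_ h' t ∈ D
            · rw [if_neg (not_not.2 h3), add_zero]
              exact_mod_cast wl_mem D R h3
            · rw [if_pos h3]
              have : (wl D R (let_ h' t) : ℝ) ≤ R := by exact_mod_cast wl_le_R D R _
              linarith
          refine (sum_le_sum h2).trans ?_
          rw [sum_add_distrib, ← sum_filter, sum_const, sum_const, card_range, nsmul_eq_mul,
            nsmul_eq_mul, mul_one]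
        have h2 := hE h' n hq
        have h3 := hE h L hh
        have h4 : (n : ℝ) ≤ L := by exact_mod_cast hmax h' n hq
        have h5 : (L : ℝ) ≤ ((((range L).filter fun i => let_ h i ∉ D).card : ℝ) + 1) * (R + 1) := by
          exact_mod_cast hrun.le
        have h6 : ((((range L).filter fun i => let_ h i ∉ D).card : ℝ) + 1) * (R + 1) ≤
            (s + 1) * (R + 1) := by
          refine mul_le_mul_of_nonneg_right (by linarith) (by linarith)
        have h7 : (s + 1) * ((R : ℝ) + 1) ≤ 4 * s * R := by nlinarith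
        have h8 : (((range n).filter fun i => let_ h' i ∉ D).card : ℝ) * R ≤ s * R :=
          mul_le_mul_of_nonneg_right h2 (by linarith)
        linarith
  · -- all paths are short
    push Not at hlong
    refine ⟨fun x y => if x = y then 0 else 1, ⟨?_, ?_, ?_, ?_⟩, ?_⟩
    · intro x
      simp
    · intro x y hxy
      rw [if_neg hxy]
      exact one_pos
    · intro x y
      by_cases hxy : x = y
      · rw [if_pos hxy, if_pos hxy.symm]
      · rw [if_neg hxy, if_neg (Ne.symm hxy)]
    · intro x y z
      by_cases h1 : x = z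
      · rw [if_pos h1]
        have h2 : ∀ a b : G, (0 : ℝ) ≤ if a = b then 0 else 1 := by
          intro a b
          split_ifs <;> norm_num
        exact add_nonneg (h2 _ _) (h2 _ _)
      · rw [if_neg h1]
        by_cases h2 : x = y
        · rw [if_pos h2, if_neg (fun h3 => h1 (h2.trans h3))]
          norm_num
        · rw [if_neg h2]
          split_ifs <;> norm_num
    · intro h L hh
      rcases Nat.eq_zero_or_pos L with rfl | hL
      · simp
      · have h1 : h 0 ≠ h L := hQ.inj hh hL le_rfl
        show ∑ t ∈ range L, (if h t = h (t + 1) then (0 : ℝ) else 1) ≤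
          5 * s * (if h 0 = h L then (0 : ℝ) else 1)
        rw [if_neg h1, mul_one]
        have h2 : ∑ t ∈ range L, (if h t = h (t + 1) then (0 : ℝ) else 1) ≤ ∑ t ∈ range L, 1 := by
          refine sum_le_sum fun t _ => ?_
          split_ifs <;> norm_num
        rw [sum_const, card_range, nsmul_eq_mul, mul_one] at h2
        refine h2.trans ?_
        have h3 := hlong h L hh
        have h4 : (L : ℝ) * L ≤ (4 * s) * (4 * s) := by
          have : ((L * L : ℕ) : ℝ) ≤ ((16 * N : ℕ) : ℝ) := by exact_mod_cast h3.le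
          push_cast at this
          nlinarith
        have h5 : (L : ℝ) ≤ 4 * s := by
          by_contra hc
          push Not at hc
          nlinarith
        linarith

end Pool.Agent.Q251.IPS
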